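import Pool.Agent.H217R2.RTBase

set_option autoImplicit false

namespace Pool.Agent.H217R2.RT

open Pool.Agent.H217R2.QB

/-! ### task A : module RTPt -/

theorem pt_eq_iff {P Q : ℕ} {i j i' j' : ℤ} :
    pt P Q i j = pt P Q i' j' ↔ ∃ s t : ℤ, i' = i + s * P - t ∧ j' = j + s + t * Q := by
  sorry

theorem pt_add {P Q : ℕ} (i j i' j' : ℤ) : pt P Q (i + i') (j + j') = pt P Q i j + pt P Q i' j' := by
  sorry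

theorem pt_sub {P Q : ℕ} (i j i' j' : ℤ) : pt P Q (i - i') (j - j') = pt P Q i j - pt P Q i' j' := by
  sorry

/-- every element has a representative in `[0, P) × [j₀, j₀ + Q)`, or is `pt 0 (j₀ - 1)`. -/
theorem pt_rep {P Q : ℕ} (hP : 0 < P) (hQ : 0 < Q) (j₀ : ℤ) (x : ZMod (P * Q + 1)) :
    (∃ i j : ℤ, 0 ≤ i ∧ i < P ∧ j₀ ≤ j ∧ j < j₀ + Q ∧ x = pt P Q i j) ∨ x = pt P Q 0 (j₀ - 1) := by
  sorry

theorem dset_cases {P Q : ℕ} (hP : 4 ≤ P) (hQ : 4 ≤ Q) {lam : ℤ → ℤ → Prop} {i j : ℤ}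
    (hi : |i| < P) (hj : |j| < Q) (h : Dset P Q lam (pt P Q i j)) :
    ∃ s t : ℤ, (s = -1 ∨ s = 0 ∨ s = 1) ∧ (t = -1 ∨ t = 0 ∨ t = 1) ∧
      |i + s * P - t| < P ∧ |j + s + t * Q| < Q ∧ lam (i + s * P - t) (j + s + t * Q) := by
  sorry

theorem dset_NS {P Q w : ℕ} (hP : 4 ≤ P) (hQ : 4 ≤ Q) (hwP : w ∣ P) (hwQ : w ∣ Q) {i j : ℤ}
    (hi : |i| < P) (hj : |j| < Q) (h : Dset P Q (lamS w) (pt P Q i j)) : NS w i j := by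
  sorry

theorem dset_NC {P Q a b : ℕ} (hP : 4 ≤ P) (hQ : 4 ≤ Q) (haP : a ∣ P) (hbQ : b ∣ Q) {i j : ℤ}
    (hi : |i| < P) (hj : |j| < Q) (h : Dset P Q (lamC a b) (pt P Q i j)) : NC a b i j := by
  sorry

/-! ### task B : module RTRob -/

theorem gen_rob {P Q ω L r : ℕ} (hP : 0 < P) (hQ : 0 < Q) (hω : 0 < ω) (hL : ω * L = P * Q)
    (lam : ℤ → ℤ → Prop) (hsymm : ∀ i j, lam i j → lam (-i) (-j))
    (col : ℤ → ℤ → Fin ω) (hcol : ∀ i j i' j', col i j = col i' j' → lam (i' - i) (j' - j))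
    (hb : ∀ (F : Finset (Sym2 (ZMod (P * Q + 1)))) (A : Finset (ZMod (P * Q + 1))),
      F.card ≤ r → FInd P Q lam F A → A.card ≤ L) :
    Good ω r (P * Q + 1) := by
  sorry

/-! ### task C : module RTCount -/

theorem bad_count {P Q α β M L r : ℕ} (hα : 0 < α) (hβ : 0 < β)
    (hM : M * (P * Q + 1) ≤ α * β * (L + 1)) (F : Finset (Sym2 (ZMod (P * Q + 1))))
    (A : Finset (ZMod (P * Q + 1))) (hF : F.card ≤ r) (hAL : L + 1 ≤ A.card)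
    (hblock : ∀ u : ZMod (P * Q + 1),
      (∀ i j : ℤ, 0 ≤ i → i < α → 0 ≤ j → j < β → ∀ e ∈ F, u + pt P Q i j ∉ e) →
      bc α β (fun i j => u + pt P Q i j ∈ A) 0 0 ≤ M) :
    ∃ Z : Finset (ZMod (P * Q + 1)), Z.card ≤ 8 * r * (α * β) ^ 2 ∧
      (∀ u ∉ Z, bc α β (fun i j => u + pt P Q i j ∈ A) 0 0 = M) ∧
      (∀ u ∉ Z, ∀ e ∈ F, u ∉ e) := by
  sorry

/-! ### task D : module RTClean -/

theorem clean_bands {P Q K B : ℕ} (hK : 4 ≤ K) (hP : 2 * B * K + 8 * K ≤ P) (hQ : 2 * B * K + 8 * K ≤ Q)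
    (Z : Finset (ZMod (P * Q + 1))) (hZ : Z.card < B) :
    ∃ u : ZMod (P * Q + 1),
      (∀ i j : ℤ, -(K : ℤ) ≤ i → i ≤ P + K → 0 ≤ j → j < K → u + pt P Q i j ∉ Z) ∧
      (∀ i j : ℤ, 0 ≤ i → i < K → -(K : ℤ) ≤ j → j ≤ Q + K → u + pt P Q i j ∉ Z) := by
  sorry

/-! ### task E : module RTBlockS -/

theorem block_le {h w : ℕ} (hh : 2 ≤ h) (hw : w = 2 * h + 1) (X : ℤ → ℤ → Prop)
    (hind : ∀ i j i' j' : ℤ, 0 ≤ i → i < w → 0 ≤ j → j < w → 0 ≤ i' → i' < w → 0 ≤ j' → j' < w →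
      X i j → X i' j' → NS w (i' - i) (j' - j)) :
    bc w w X 0 0 ≤ w := by
  sorry

/-! ### task F : module RTCrystal -/

theorem crystal {h w : ℕ} (hh : 2 ≤ h) (hw : w = 2 * h + 1) (X : ℤ → ℤ → Prop)
    (hind : ∀ i j i' j' : ℤ, 0 ≤ i → i < 10 * w → 0 ≤ j → j < 30 * w ^ 2 →
      0 ≤ i' → i' < 10 * w → 0 ≤ j' → j' < 30 * w ^ 2 →
      X i j → X i' j' → NS w (i' - i) (j' - j))
    (hbl : ∀ i j : ℤ, 0 ≤ i → i + w ≤ 10 * w → 0 ≤ j → j + w ≤ 30 * w ^ 2 → bc w w X i j = w) :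
    ∃ i₀ j₀ c : ℤ, 0 ≤ i₀ ∧ i₀ + (2 * w + 1) ≤ 10 * w ∧ 0 ≤ j₀ ∧ j₀ + 3 * w ≤ 30 * w ^ 2 ∧
      ∀ i j : ℤ, i₀ ≤ i → i ≤ i₀ + 2 * w → j₀ ≤ j → j < j₀ + 3 * w →
        (X i j ↔ (w : ℤ) ∣ i + 2 * j - c) := by
  sorry

/-! ### task G : module RTRow -/

theorem row_band {h w P : ℕ} (hh : 2 ≤ h) (hw : w = 2 * h + 1) (hP : 4 * w ≤ P)
    (X : ℤ → ℤ → Prop) (c : ℤ)
    (hQ1 : ∀ i j : ℤ, 0 ≤ i → i ≤ 2 * w → 0 ≤ j → j < 3 * w → (X i j ↔ (w : ℤ) ∣ i + 2 * j - c))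
    (hind : ∀ i j i' j' : ℤ, 0 ≤ i → i < P → 0 ≤ j → j < 3 * w → 0 ≤ i' → i' < P →
      0 ≤ j' → j' < 3 * w → X i j → X i' j' → NS w (i' - i) (j' - j))
    (hbl : ∀ i j : ℤ, 0 ≤ i → i + w ≤ P → 0 ≤ j → j + w ≤ 3 * w → bc w w X i j = w) :
    ∃ I₀ : ℤ, 2 * w ≤ I₀ ∧ I₀ < P ∧ ∀ i j : ℤ, 0 ≤ i → i < P → w ≤ j → j < 3 * w →
      (X i j ↔ if i ≤ I₀ then (w : ℤ) ∣ i + 2 * j - c else (w : ℤ) ∣ i + 2 * j - c - 2) := by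
  sorry

/-! ### task H : module RTCol -/

theorem col_band {h w Q : ℕ} (hh : 2 ≤ h) (hw : w = 2 * h + 1) (hwQ : w ∣ Q) (hQ : 5 * w ≤ Q)
    (X : ℤ → ℤ → Prop) (c : ℤ)
    (hper : ∀ i j : ℤ, X (i - 1) (j + Q) ↔ X i j)
    (hQ1 : ∀ i j : ℤ, 0 ≤ i → i ≤ 2 * w → 0 ≤ j → j < 3 * w → (X i j ↔ (w : ℤ) ∣ i + 2 * j - c))
    (hind : ∀ i j i' j' : ℤ, 0 ≤ i → i ≤ 2 * w → 0 ≤ j → j < Q + w → 0 ≤ i' → i' ≤ 2 * w →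
      0 ≤ j' → j' < Q + w → |j' - j| < Q → X i j → X i' j' → NS w (i' - i) (j' - j))
    (hbl : ∀ i j : ℤ, 0 ≤ i → i + w ≤ 2 * w + 1 → 0 ≤ j → j + w ≤ Q + w → bc w w X i j = w) :
    ∃ J₀ : ℤ, 3 * w - 1 ≤ J₀ ∧ J₀ < Q ∧ ∀ i j : ℤ, 0 ≤ i → i < 2 * w → 0 ≤ j → j < Q + w →
      (X i j ↔ if j ≤ J₀ then (w : ℤ) ∣ i + 2 * j - c else (w : ℤ) ∣ i + 2 * j - c + 1) := by
  sorry

/-! ### task I : module RTFin -/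

theorem S_finish {h w P Q : ℕ} (hh : 2 ≤ h) (hw : w = 2 * h + 1) (hwP : w ∣ P) (hwQ : w ∣ Q)
    (hP : 5 * w ≤ P) (hQ : 5 * w ≤ Q)
    (X : ℤ → ℤ → Prop) (c I₀ J₀ : ℤ)
    (per1 : ∀ i j : ℤ, X (i + P) (j + 1) ↔ X i j)
    (per2 : ∀ i j : ℤ, X (i - 1) (j + Q) ↔ X i j)
    (hI : 2 * w ≤ I₀) (hI' : I₀ < P) (hJ : 3 * w - 1 ≤ J₀) (hJ' : J₀ < Q)
    (hQ1 : ∀ i j : ℤ, 0 ≤ i → i ≤ 2 * w → 0 ≤ j → j < 3 * w → (X i j ↔ (w : ℤ) ∣ i + 2 * j - c))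
    (hrow : ∀ i j : ℤ, 0 ≤ i → i < P → w ≤ j → j < 3 * w →
      (X i j ↔ if i ≤ I₀ then (w : ℤ) ∣ i + 2 * j - c else (w : ℤ) ∣ i + 2 * j - c - 2))
    (hcol : ∀ i j : ℤ, 0 ≤ i → i < 2 * w → 0 ≤ j → j < Q + w →
      (X i j ↔ if j ≤ J₀ then (w : ℤ) ∣ i + 2 * j - c else (w : ℤ) ∣ i + 2 * j - c + 1))
    (hindr : ∀ i j i' j' : ℤ, 0 ≤ i → i < P → 0 ≤ j → j < 3 * w → X i j → X i' j' →
      |i' - i| < P → |j' - j| < Q → NS w (i' - i) (j' - j))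
    (hindc : ∀ i j i' j' : ℤ, 0 ≤ i → i < 2 * w → 0 ≤ j → j < Q + w → X i j → X i' j' →
      |i' - i| < P → |j' - j| < Q → NS w (i' - i) (j' - j)) :
    ∀ i j : ℤ, 0 ≤ i → i < P → w ≤ j → j < Q + w → X i j → ∃ s t : ℤ,
      I₀ - P < i + s * P - t ∧ i + s * P - t ≤ I₀ ∧ J₀ - Q < j + s + t * Q ∧
      j + s + t * Q ≤ J₀ ∧ (w : ℤ) ∣ (i + s * P - t) + 2 * (j + s + t * Q) - c := by
  sorry

/-! ### task J : module RTAsmS -/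

theorem S_bound {h w P Q r : ℕ} (hh : 2 ≤ h) (hw : w = 2 * h + 1) (hwP : w ∣ P) (hwQ : w ∣ Q)
    (hP : 1000 * w ^ 8 * (r + 1) ≤ P) (hQ : 1000 * w ^ 8 * (r + 1) ≤ Q)
    (F : Finset (Sym2 (ZMod (P * Q + 1)))) (A : Finset (ZMod (P * Q + 1)))
    (hF : F.card ≤ r) (hA : FInd P Q (lamS w) F A) : A.card ≤ P * Q / w := by
  sorry

theorem S_good {h w r p q : ℕ} (hh : 2 ≤ h) (hw : w = 2 * h + 1)
    (hp : 1000 * w ^ 8 * (r + 1) ≤ p) (hq : 1000 * w ^ 8 * (r + 1) ≤ q) :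
    Good w r (w ^ 2 * p * q + 1) := by
  sorry

/-! ### task K : module RTBlockC -/

theorem blockC_le {a b : ℕ} (ha : 2 ≤ a) (hb : 2 ≤ b) (X : ℤ → ℤ → Prop)
    (hind : ∀ i j i' j' : ℤ, 0 ≤ i → i < a → 0 ≤ j → j < b → 0 ≤ i' → i' < a → 0 ≤ j' → j' < b →
      X i j → X i' j' → NC a b (i' - i) (j' - j)) :
    bc a b X 0 0 ≤ 1 := by
  sorry

theorem C_finish {a b P Q : ℕ} (ha : 2 ≤ a) (hb : 2 ≤ b) (haP : a ∣ P) (hbQ : b ∣ Q)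
    (hP : 4 * a ≤ P) (hQ : 4 * b ≤ Q) (X : ℤ → ℤ → Prop)
    (per1 : ∀ i j : ℤ, X (i + P) (j + 1) ↔ X i j)
    (per2 : ∀ i j : ℤ, X (i - 1) (j + Q) ↔ X i j)
    (h00 : X 0 0)
    (hrow : ∀ i : ℤ, 0 ≤ i → i < P → bc a b X i 0 = 1)
    (hcol : ∀ j : ℤ, 0 ≤ j → j < Q → bc a b X (-1) j = 1)
    (hindr : ∀ i j i' j' : ℤ, 0 ≤ i → i < P + a → 0 ≤ j → j < b → X i j → X i' j' →
      |i' - i| < P → |j' - j| < Q → NC a b (i' - i) (j' - j))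
    (hindc : ∀ i j i' j' : ℤ, -1 ≤ i → i < a → 0 ≤ j → j < Q + b → X i j → X i' j' →
      |i' - i| < P → |j' - j| < Q → NC a b (i' - i) (j' - j)) :
    ∃ s t : ℤ → ℤ, ∀ x y : ℤ, X x y → ∃ i j m n : ℤ, 0 ≤ i ∧ i < P ∧ (a : ℤ) ∣ i ∧ 0 ≤ j ∧ j < Q ∧
      (b : ℤ) ∣ j ∧ x + m * P - n = i - t j ∧ y + m + n * Q = j + s i := by
  sorry

/-! ### task L : module RTAsmC -/

theorem C_good {a b r p q : ℕ} (ha : 2 ≤ a) (hb : 2 ≤ b)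
    (hp : 1000 * (a * b) ^ 8 * (r + 1) ≤ p) (hq : 1000 * (a * b) ^ 8 * (r + 1) ≤ q) :
    Good (a * b) r ((a * b) ^ 2 * p * q + 1) := by
  sorry

/-! ### task M : module RTHost -/

/-- `(k + 1)`-critical host graphs with `nv` vertices and `ne` edges. -/
def Host (k nv ne : ℕ) : Prop :=
  ∃ a b : Fin ne → Fin nv, (∀ e, a e ≠ b e) ∧ (∀ u, ∃ e, a e = u ∨ b e = u) ∧
    (∀ c : Fin nv → Fin k, ∃ e, c (a e) = c (b e)) ∧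
    (∀ e, ∃ c : Fin nv → Fin k, c (a e) = c (b e) ∧ ∀ e', e' ≠ e → c (a e') ≠ c (b e'))

theorem host_cycle (m : ℕ) (hm : 1 ≤ m) : Host 2 (2 * m + 1) (2 * m + 1) := by
  sorry

theorem host_cone {k nv ne : ℕ} (hk : 1 ≤ k) (h : Host k nv ne) : Host (k + 1) (nv + 1) (ne + nv) := by
  sorry

/-- Moser spindle -/
theorem host_moser : Host 3 7 11 := by
  sorry

/-- hosts of both parities. -/
theorem host_std (k m : ℕ) (hk : 3 ≤ k) (hm : 1 ≤ m) : ∃ ne, 0 < ne ∧ Host k (k + 2 * m - 1) ne := by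
  sorry

theorem host_odd (k : ℕ) (hk : 3 ≤ k) : ∃ ne, 0 < ne ∧ Host k (k + 4) ne := by
  sorry

/-! ### task N : module RTAll -/

theorem all_large_k {k C : ℕ} (hk : 3 ≤ k)
    (h : ∀ r p q : ℕ, C * (r + 1) ≤ p → C * (r + 1) ≤ q → Good k r (k ^ 2 * p * q + 1)) :
    ∃ C' : ℕ, ∀ r n : ℕ, C' * (r + 1) ^ 2 ≤ n → Good k r n := by
  sorry

/-! ### task O : module RTMain -/

theorem good_all {k : ℕ} (hk : 4 ≤ k) : ∃ C' : ℕ, ∀ r n : ℕ, C' * (r + 1) ^ 2 ≤ n → Good k r n := by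
  sorry

theorem main_k (k : ℕ) (hk : 5 ≤ k) : ∃ c : ℝ, 0 < c ∧ ∃ n₀ : ℕ, ∀ n : ℕ, n₀ ≤ n →
    ∃ G : SimpleGraph (Fin n), G.chromaticNumber = k ∧
    (∀ v : Fin n, (G.induce {w : Fin n | w ≠ v}).chromaticNumber = k - 1) ∧
    (∀ A : Finset (Sym2 (Fin n)), (A.card : ℝ) ≤ c * Real.sqrt n →
      (G.deleteEdges (↑A : Set (Sym2 (Fin n)))).chromaticNumber = k) := by
  sorry

end Pool.Agent.H217R2.RT
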