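import Mathlib
set_option autoImplicit false

/-!
Dense 4-critical graphs far from being bipartite: a blow-up of the 5-cycle with five odd cycles
attached.
-/

namespace H217R2.Toft

open SimpleGraph

/-- a colour different from both -/
def pick (x y : Fin 3) : Fin 3 :=
  if 0 ≠ x ∧ 0 ≠ y then 0 else if 1 ≠ x ∧ 1 ≠ y then 1 else 2

theorem pick_ne_left : ∀ x y, pick x y ≠ x := by decide
theorem pick_ne_right : ∀ x y, pick x y ≠ y := by decide

theorem exists_step {m : ℕ} [NeZero m] (f : ZMod m → Fin 3) (hf : ∃ s s', f s ≠ f s') :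
    ∃ s, f s ≠ f (s + 1) := by
  by_contra hcon
  push Not at hcon
  obtain ⟨s, s', hss⟩ := hf
  have h : ∀ n : ℕ, f (n : ZMod m) = f 0 := by
    intro n
    induction n with
    | zero => simp
    | succ n ih => rw [← ih, hcon (n : ZMod m)]; push_cast; rfl
  have h1 : ∀ x : ZMod m, f x = f 0 := by
    intro x
    have := h x.val
    rwa [ZMod.natCast_zmod_val] at this
  exact hss (by rw [h1 s, h1 s'])

/-- the colours along the cycle, going backwards from `s` -/
def gcol {m : ℕ} (f : ZMod m → Fin 3) (s : ZMod m) : ℕ → Fin 3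
  | 0 => f (s + 1)
  | k + 1 => pick (f (s - ((k + 1 : ℕ) : ZMod m))) (gcol f s k)

/-- list colouring of a cycle: every vertex has one forbidden colour, and the forbidden colours are
not all equal -/
theorem cycle_list {m : ℕ} [NeZero m] (f : ZMod m → Fin 3)
    (hf : ∃ s s', f s ≠ f s') :
    ∃ c : ZMod m → Fin 3, (∀ v, c v ≠ f v) ∧ ∀ v, c v ≠ c (v + 1) := by
  obtain ⟨s, hs⟩ := exists_step f hf
  have hc : ∀ v : ZMod m, gcol f s (s - v).val ≠ f v := by
    intro v
    have hv : s - (((s - v).val : ℕ) : ZMod m) = v := by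
      rw [ZMod.natCast_zmod_val]; ring
    rcases hk : (s - v).val with _ | k
    · have : s - v = 0 := (ZMod.val_eq_zero _).1 hk
      have hsv : v = s := by rw [sub_eq_zero] at this; exact this.symm
      rw [hsv]
      exact fun h => hs h.symm
    · rw [hk] at hv
      have := pick_ne_left (f (s - ((k + 1 : ℕ) : ZMod m))) (gcol f s k)
      rw [hv] at this
      show pick (f (s - ((k + 1 : ℕ) : ZMod m))) (gcol f s k) ≠ f v
      rw [hv]
      exact this
  refine ⟨fun v => gcol f s (s - v).val, hc, ?_⟩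
  intro v
  show gcol f s (s - v).val ≠ gcol f s (s - (v + 1)).val
  rcases hk : (s - v).val with _ | k
  · have : s - v = 0 := (ZMod.val_eq_zero _).1 hk
    have hsv : v = s := by rw [sub_eq_zero] at this; exact this.symm
    subst hsv
    have := hc (v + 1)
    exact fun h => this h.symm
  · have hk' : (s - (v + 1)).val = k := by
      have h1 : s - (v + 1) = ((k : ℕ) : ZMod m) := by
        have : s - v = (((s - v).val : ℕ) : ZMod m) := by rw [ZMod.natCast_zmod_val]
        rw [hk] at this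
        have h2 : s - (v + 1) = (s - v) - 1 := by ring
        rw [h2, this]
        push_cast
        ring
      rw [h1]
      apply ZMod.val_cast_of_lt
      have := ZMod.val_lt (s - v)
      omega
    rw [hk']
    exact pick_ne_right _ _

/-- an odd cycle has no proper colouring with two colours -/
theorem odd_cycle (t : ℕ) (c : ZMod (2 * t + 1) → Fin 3) (z : Fin 3) (h1 : ∀ v, c v ≠ z)
    (h2 : ∀ v, c v ≠ c (v + 1)) : False := by
  have key : ∀ a b d z : Fin 3, a ≠ z → b ≠ z → d ≠ z → a ≠ b → b ≠ d → a = d := by decide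
  have h3 : ∀ v, c (v + 1 + 1) = c v := fun v =>
    (key _ _ _ z (h1 v) (h1 (v + 1)) (h1 (v + 1 + 1)) (h2 v) (h2 (v + 1))).symm
  have h4 : ∀ n : ℕ, c ((2 * n : ℕ) : ZMod (2 * t + 1)) = c 0 := by
    intro n
    induction n with
    | zero => simp
    | succ n ih =>
      rw [← ih, ← h3 ((2 * n : ℕ) : ZMod (2 * t + 1))]
      congr 1
      push_cast
      ring
  have h5 := h4 t
  have h6 : ((2 * t : ℕ) : ZMod (2 * t + 1)) + 1 = 0 := by
    have := ZMod.natCast_self (2 * t + 1)
    push_cast at this ⊢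
    exact this
  have h7 := h2 ((2 * t : ℕ) : ZMod (2 * t + 1))
  rw [h6, h5] at h7
  exact h7 rfl

/-- vertices: five clusters of size `t` and five odd cycles of length `2t+1` -/
abbrev W (t : ℕ) := (ZMod 5 × ZMod t) ⊕ (ZMod 5 × ZMod (2 * t + 1))

/-- the relation generating the graph -/
def rel (t : ℕ) (φ : ZMod (2 * t + 1) → Bool × ZMod t) : W t → W t → Prop
  | Sum.inl (i, _), Sum.inl (j, _) => j = i + 1
  | Sum.inr (i, s), Sum.inr (j, s') => i = j ∧ s' = s + 1
  | Sum.inr (j, s), Sum.inl (i, a) => (φ s).2 = a ∧ i = (if (φ s).1 then j + 1 else j - 1)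
  | Sum.inl _, Sum.inr _ => False

/-- the graph: a blow-up of `C₅` with five odd cycles attached -/
def HG (t : ℕ) (φ : ZMod (2 * t + 1) → Bool × ZMod t) : SimpleGraph (W t) :=
  SimpleGraph.fromRel (rel t φ)

theorem five' : ∀ c : Fin 5 → Fin 3, (∀ i, c i ≠ c (i + 1)) → ∃ j, c (j - 1) = c (j + 1) := by
  decide +kernel

theorem five (c : ZMod 5 → Fin 3) (h : ∀ i, c i ≠ c (i + 1)) : ∃ j : ZMod 5, c (j - 1) = c (j + 1) :=
  five' c h

theorem third : ∀ x y a b : Fin 3, x ≠ y → a ≠ x → a ≠ y → b ≠ x → b ≠ y → a = b := by decide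

theorem not_col (t : ℕ) [NeZero t] (φ : ZMod (2 * t + 1) → Bool × ZMod t) :
    ¬ (HG t φ).Colorable 3 := by
  rintro ⟨C⟩
  let c : W t → Fin 3 := fun w => C w
  have hc : ∀ a b : W t, a ≠ b → rel t φ a b → c a ≠ c b := fun a b h1 h2 =>
    C.valid ((fromRel_adj _ _ _).2 ⟨h1, Or.inl h2⟩)
  have h5 : ∀ i : ZMod 5, i ≠ i + 1 := by decide
  have hd : ∀ (i : ZMod 5) (a b : ZMod t), c (Sum.inl (i, a)) ≠ c (Sum.inl (i + 1, b)) := by
    intro i a b
    apply hc
    · intro h
      injection h with h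
      injection h with h _
      exact h5 i h
    · rfl
  -- a mono pair
  have hmono : ∃ (j : ZMod 5) (z : Fin 3), (∀ a, c (Sum.inl (j - 1, a)) = z) ∧
      (∀ a, c (Sum.inl (j + 1, a)) = z) := by
    by_cases hnm : ∃ (j : ZMod 5) (a b : ZMod t), c (Sum.inl (j, a)) ≠ c (Sum.inl (j, b))
    · obtain ⟨j, a, b, hab⟩ := hnm
      have hl : ∀ x (y : Fin 3), y = c (Sum.inl (j - 1, x)) → y ≠ c (Sum.inl (j, a)) ∧ y ≠ c (Sum.inl (j, b)) := by
        intro x y hy
        have h1 := hd (j - 1) x a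
        have h2 := hd (j - 1) x b
        rw [sub_add_cancel] at h1 h2
        rw [hy]
        exact ⟨h1, h2⟩
      refine ⟨j, c (Sum.inl (j - 1, 0)), fun x => ?_, fun x => ?_⟩
      · obtain ⟨h1, h2⟩ := hl x _ rfl
        obtain ⟨h3, h4⟩ := hl 0 _ rfl
        exact third _ _ _ _ hab h1 h2 h3 h4
      · obtain ⟨h3, h4⟩ := hl 0 _ rfl
        exact third _ _ _ _ hab (hd j a x).symm (hd j b x).symm h3 h4
    · push Not at hnm
      obtain ⟨j, hj⟩ := five (fun i => c (Sum.inl (i, 0))) (fun i => hd i 0 0)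
      exact ⟨j, c (Sum.inl (j - 1, 0)), fun x => hnm _ _ _, fun x => by
        rw [hnm (j + 1) x 0]; exact hj.symm⟩
  obtain ⟨j, z, hz1, hz2⟩ := hmono
  have : NeZero (2 * t + 1) := ⟨by omega⟩
  refine odd_cycle t (fun s => c (Sum.inr (j, s))) z ?_ ?_
  · intro s
    have : c (Sum.inr (j, s)) ≠ c (Sum.inl ((if (φ s).1 then j + 1 else j - 1), (φ s).2)) := by
      apply hc
      · exact fun h => by cases h
      · exact ⟨rfl, rfl⟩
    by_cases hφ : (φ s).1
    · simp only [hφ, if_true] at this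
      rwa [hz2] at this
    · simp only [hφ] at this
      simp only [Bool.false_eq_true, if_false] at this
      rwa [hz1] at this
  · intro s
    apply hc
    · intro h
      injection h with h
      injection h with _ h
      have ht : t ≠ 0 := NeZero.ne t
      have h1 : (1 : ZMod (2 * t + 1)) = 0 := by
        have h2 : s + 0 = s + 1 := by rw [add_zero]; exact h
        exact (add_left_cancel h2).symm
      have : Fact (1 < 2 * t + 1) := ⟨by omega⟩
      exact one_ne_zero h1
    · exact ⟨rfl, rfl⟩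

/-- colours of the clusters once the edge `(i,a)(i+1,b)` has been deleted, in terms of `d = j - i` -/
def clus {t : ℕ} (a b : ZMod t) (d : ZMod 5) (x : ZMod t) : Fin 3 :=
  if d = 0 then (if x = a then 2 else 0)
  else if d = 1 then (if x = b then 2 else 1)
  else if d = 2 then 0
  else if d = 3 then 2
  else 1

theorem zmod5_cases : ∀ d : ZMod 5, d = 0 ∨ d = 1 ∨ d = 2 ∨ d = 3 ∨ d = 4 := by decide

theorem clus_adj {t : ℕ} (a b : ZMod t) (d : ZMod 5) (x y : ZMod t)
    (h : ¬ (d = 0 ∧ x = a ∧ y = b)) : clus a b d x ≠ clus a b (d + 1) y := by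
  have hd : d = 0 ∨ d = 1 ∨ d = 2 ∨ d = 3 ∨ d = 4 := zmod5_cases d
  have e1 : (1 : ZMod 5) ≠ 0 := by decide
  have e2 : (2 : ZMod 5) ≠ 0 := by decide
  have e3 : (3 : ZMod 5) ≠ 0 := by decide
  have e4 : (4 : ZMod 5) ≠ 0 := by decide
  have e21 : (2 : ZMod 5) ≠ 1 := by decide
  have e31 : (3 : ZMod 5) ≠ 1 := by decide
  have e41 : (4 : ZMod 5) ≠ 1 := by decide
  have e32 : (3 : ZMod 5) ≠ 2 := by decide
  have e42 : (4 : ZMod 5) ≠ 2 := by decide
  have e43 : (4 : ZMod 5) ≠ 3 := by decide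
  have s1 : (1 : ZMod 5) + 1 = 2 := by decide
  have s2 : (2 : ZMod 5) + 1 = 3 := by decide
  have s3 : (3 : ZMod 5) + 1 = 4 := by decide
  have s4 : (4 : ZMod 5) + 1 = 0 := by decide
  rcases hd with rfl | rfl | rfl | rfl | rfl
  · by_cases hx : x = a
    · by_cases hy : y = b
      · exact absurd ⟨rfl, hx, hy⟩ h
      · simp [clus, hx, hy, e1]
    · by_cases hy : y = b
      · simp [clus, hx, hy, e1]
      · simp [clus, hx, hy, e1]
  · by_cases hx : x = b <;> simp [clus, hx, s1, e1, e2, e21]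
  · simp [clus, s2, e2, e21, e3, e31, e32]
  · simp [clus, s3, e3, e31, e32, e4, e41, e42, e43]
  · by_cases hy : y = a <;> simp [clus, s4, e4, e41, e42, e43, hy]

/-- the forbidden colours on the cycle `j` are not all equal -/
theorem clus_nonconst {t : ℕ} [NeZero t] (ht : 2 ≤ t) (a b : ZMod t) (d : ZMod 5) :
    ∃ (e e' : Bool) (x x' : ZMod t),
      clus a b (if e then d + 1 else d - 1) x ≠ clus a b (if e' then d + 1 else d - 1) x' := by
  have hd : d = 0 ∨ d = 1 ∨ d = 2 ∨ d = 3 ∨ d = 4 := zmod5_cases d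
  have : Fact (1 < t) := ⟨by omega⟩
  have hb : ∃ b', b' ≠ b := exists_ne b
  have ha : ∃ a', a' ≠ a := exists_ne a
  obtain ⟨b', hb'⟩ := hb
  obtain ⟨a', ha'⟩ := ha
  rcases hd with rfl | rfl | rfl | rfl | rfl
  · refine ⟨true, true, b, b', ?_⟩
    have e1 : (1 : ZMod 5) ≠ 0 := by decide
    simp [clus, hb', e1]
  · refine ⟨false, false, a, a', ?_⟩
    simp [clus, ha']
  · refine ⟨false, true, b', b', ?_⟩
    have s1 : (2 : ZMod 5) - 1 = 1 := by decide
    have s2 : (2 : ZMod 5) + 1 = 3 := by decide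
    have e3 : (3 : ZMod 5) ≠ 0 := by decide
    have e31 : (3 : ZMod 5) ≠ 1 := by decide
    have e32 : (3 : ZMod 5) ≠ 2 := by decide
    have e1 : (1 : ZMod 5) ≠ 0 := by decide
    simp [clus, s1, s2, hb', e3, e31, e32, e1]
  · refine ⟨false, true, b', b', ?_⟩
    have s1 : (3 : ZMod 5) - 1 = 2 := by decide
    have s2 : (3 : ZMod 5) + 1 = 4 := by decide
    have e2 : (2 : ZMod 5) ≠ 0 := by decide
    have e21 : (2 : ZMod 5) ≠ 1 := by decide
    have e4 : (4 : ZMod 5) ≠ 0 := by decide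
    have e41 : (4 : ZMod 5) ≠ 1 := by decide
    have e42 : (4 : ZMod 5) ≠ 2 := by decide
    have e43 : (4 : ZMod 5) ≠ 3 := by decide
    simp [clus, s1, s2, e2, e21, e4, e41, e42, e43]
  · refine ⟨false, true, a', a', ?_⟩
    have s1 : (4 : ZMod 5) - 1 = 3 := by decide
    have s2 : (4 : ZMod 5) + 1 = 0 := by decide
    have e3 : (3 : ZMod 5) ≠ 0 := by decide
    have e31 : (3 : ZMod 5) ≠ 1 := by decide
    have e32 : (3 : ZMod 5) ≠ 2 := by decide
    simp [clus, s1, s2, e3, e31, e32, ha']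

/-- every edge of the blow-up is critical -/
theorem crit (t : ℕ) [NeZero t] (ht : 2 ≤ t) (φ : ZMod (2 * t + 1) → Bool × ZMod t)
    (hφ : Function.Surjective φ) (i : ZMod 5) (a b : ZMod t) :
    ((HG t φ).deleteEdges {s(Sum.inl (i, a), Sum.inl (i + 1, b))}).Colorable 3 := by
  have : NeZero (2 * t + 1) := ⟨by omega⟩
  -- the colours on the cycles
  have hcyc : ∀ j : ZMod 5, ∃ c : ZMod (2 * t + 1) → Fin 3,
      (∀ s, c s ≠ clus a b ((if (φ s).1 then j + 1 else j - 1) - i) (φ s).2) ∧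
      ∀ s, c s ≠ c (s + 1) := by
    intro j
    apply cycle_list
    obtain ⟨e, e', x, x', hne⟩ := clus_nonconst ht a b (j - i)
    obtain ⟨s, hs⟩ := hφ (e, x)
    obtain ⟨s', hs'⟩ := hφ (e', x')
    refine ⟨s, s', ?_⟩
    rw [hs, hs']
    have h1 : ∀ e : Bool, (if e then j + 1 else j - 1) - i = (if e then (j - i) + 1 else (j - i) - 1) := by
      intro e
      cases e <;> simp <;> ring
    simp only [h1]
    exact hne
  choose cc hcc1 hcc2 using hcyc
  let c : W t → Fin 3 := fun w => match w with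
    | Sum.inl (j, x) => clus a b (j - i) x
    | Sum.inr (j, s) => cc j s
  have hrel : ∀ u v : W t, rel t φ u v → s(u, v) ≠ s(Sum.inl (i, a), Sum.inl (i + 1, b)) →
      c u ≠ c v := by
    rintro (⟨j, x⟩ | ⟨j, s⟩) (⟨j', x'⟩ | ⟨j', s'⟩) h hne
    · have h' : j' = j + 1 := h
      subst h'
      show clus a b (j - i) x ≠ clus a b (j + 1 - i) x'
      have e : j + 1 - i = (j - i) + 1 := by ring
      rw [e]
      apply clus_adj
      rintro ⟨h1, h2, h3⟩
      apply hne
      have h4 : j = i := sub_eq_zero.1 h1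
      rw [h4, h2, h3]
    · exact absurd h (by simp [rel])
    · obtain ⟨h1, h2⟩ := h
      show cc j s ≠ clus a b (j' - i) x'
      rw [h2, ← h1]
      exact hcc1 j s
    · obtain ⟨h1, h2⟩ := h
      show cc j s ≠ cc j' s'
      rw [← h1, h2]
      exact hcc2 j s
  refine ⟨SimpleGraph.Coloring.mk c ?_⟩
  intro u v huv
  rw [deleteEdges_adj] at huv
  obtain ⟨h1, h2⟩ := huv
  rw [Set.mem_singleton_iff] at h2
  rcases (fromRel_adj _ _ _).1 h1 with ⟨_, h | h⟩
  · exact hrel u v h h2
  · have : s(v, u) ≠ s(Sum.inl (i, a), Sum.inl (i + 1, b)) := by rwa [Sym2.eq_swap]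
    exact (hrel v u h this).symm

end H217R2.Toft
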