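import Mathlib
import Pool.Agent.H217R2.Toft
set_option autoImplicit false

namespace H217R2.Toft

open SimpleGraph

/-- colouring all edges but `uv` -/
def Crit {V : Type} (G : SimpleGraph V) (u v : V) : Prop :=
  ∃ c : V → Fin 3, ∀ x y, G.Adj x y → s(x, y) ≠ s(u, v) → c x ≠ c y

theorem crit_iff {V : Type} (G : SimpleGraph V) (u v : V) :
    Crit G u v ↔ (G.deleteEdges {s(u, v)}).Colorable 3 := by
  constructor
  · rintro ⟨c, hc⟩
    refine ⟨SimpleGraph.Coloring.mk c ?_⟩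
    intro x y h
    rw [deleteEdges_adj] at h
    exact hc x y h.1 h.2
  · rintro ⟨C⟩
    refine ⟨fun x => C x, fun x y h1 h2 => C.valid ?_⟩
    rw [deleteEdges_adj]
    exact ⟨h1, h2⟩

/-- the property to be transferred to a graph on `Fin n` -/
def Good (t : ℕ) {V : Type} (G : SimpleGraph V) : Prop :=
  G.Connected ∧ ¬ G.Colorable 3 ∧ (∀ u v, G.Adj u v → Crit G u v) ∧
    ∃ f : ZMod 5 × ZMod t → V, Function.Injective f ∧ ∀ i a b, G.Adj (f (i, a)) (f (i + 1, b))

theorem Good.iso {t : ℕ} {V V' : Type} {G : SimpleGraph V} {G' : SimpleGraph V'} (e : G ≃g G')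
    (h : Good t G) : Good t G' := by
  obtain ⟨h1, h2, h3, f, h4, h5⟩ := h
  refine ⟨e.connected_iff.1 h1, ?_, ?_, fun x => e (f x), e.injective.comp h4, ?_⟩
  · rintro ⟨C⟩
    exact h2 ⟨C.comp e.toHom⟩
  · intro u v huv
    obtain ⟨c, hc⟩ := h3 (e.symm u) (e.symm v) (e.symm.map_adj_iff.2 huv)
    refine ⟨fun x => c (e.symm x), fun x y hxy hne => hc _ _ (e.symm.map_adj_iff.2 hxy) ?_⟩
    intro h
    apply hne
    have := congrArg (Sym2.map e) h
    simpa using this
  · intro i a b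
    exact e.map_adj_iff.2 (h5 i a b)

/-- a minimal non-3-colourable spanning subgraph -/
theorem exists_min {V : Type} [Finite V] (H : SimpleGraph V) (hH : ¬ H.Colorable 3) :
    ∃ K : SimpleGraph V, K ≤ H ∧ ¬ K.Colorable 3 ∧ (∀ u v, K.Adj u v → Crit K u v) ∧
      ∀ u v, H.Adj u v → Crit H u v → K.Adj u v := by
  obtain ⟨K, hK⟩ := exists_minimal_of_wellFoundedLT
    (fun K : SimpleGraph V => K ≤ H ∧ ¬ K.Colorable 3) ⟨H, le_rfl, hH⟩
  obtain ⟨⟨h1, h2⟩, h3⟩ := hK
  refine ⟨K, h1, h2, ?_, ?_⟩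
  · intro u v huv
    rw [crit_iff]
    by_contra hcon
    have h4 := h3 (y := K.deleteEdges {s(u, v)}) ⟨(deleteEdges_le _).trans h1, hcon⟩
      (deleteEdges_le _)
    have h5 := h4 huv
    rw [deleteEdges_adj] at h5
    exact h5.2 rfl
  · intro u v huv hcr
    by_contra hcon
    apply h2
    obtain ⟨c, hc⟩ := hcr
    refine ⟨SimpleGraph.Coloring.mk c ?_⟩
    intro x y hxy
    refine hc x y (h1 hxy) ?_
    intro h
    rw [Sym2.eq_iff] at h
    rcases h with ⟨rfl, rfl⟩ | ⟨rfl, rfl⟩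
    · exact hcon hxy
    · exact hcon hxy.symm

theorem exists_good (t : ℕ) (ht : 2 ≤ t) :
    ∃ (V : Type) (_ : Finite V) (G : SimpleGraph V), Good t G ∧ Nat.card V ≤ 15 * t + 5 := by
  have : NeZero t := ⟨by omega⟩
  have : NeZero (2 * t + 1) := ⟨by omega⟩
  -- the attaching map
  have hcard : Fintype.card (Bool × ZMod t) ≤ Fintype.card (ZMod (2 * t + 1)) := by
    rw [Fintype.card_prod, ZMod.card, ZMod.card, Fintype.card_bool]
    omega
  obtain ⟨g⟩ := Function.Embedding.nonempty_of_card_le hcard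
  have hφ := Function.invFun_surjective g.injective
  obtain ⟨K, hK1, hK2, hK3, hK4⟩ := exists_min (HG t (Function.invFun g)) (not_col t _)
  have hD : ∀ (i : ZMod 5) (a b : ZMod t), K.Adj (Sum.inl (i, a)) (Sum.inl (i + 1, b)) := by
    intro i a b
    apply hK4
    · apply (fromRel_adj _ _ _).2
      refine ⟨?_, Or.inl rfl⟩
      have h5 : ∀ i : ZMod 5, i ≠ i + 1 := by decide
      intro h
      injection h with h
      injection h with h _
      exact h5 i h
    · rw [crit_iff]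
      exact crit t ht _ hφ i a b
  -- the component
  let C := K.connectedComponentMk (Sum.inl (0, 0))
  have hC : ∀ (i : ZMod 5) (a : ZMod t), Sum.inl (i, a) ∈ C.supp := by
    have hstep : ∀ (i : ZMod 5) (a b : ZMod t), Sum.inl (i, a) ∈ C.supp → Sum.inl (i + 1, b) ∈ C.supp :=
      fun i a b h => (C.mem_supp_congr_adj (hD i a b)).1 h
    have h0 : (Sum.inl ((0 : ZMod 5), (0 : ZMod t)) : W t) ∈ C.supp := by
      rw [ConnectedComponent.mem_supp_iff]
    have h1 : ∀ b, (Sum.inl ((1 : ZMod 5), b) : W t) ∈ C.supp := fun b => by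
      have := hstep 0 0 b h0
      rwa [zero_add] at this
    have h2 : ∀ b, (Sum.inl ((2 : ZMod 5), b) : W t) ∈ C.supp := fun b => by
      have := hstep 1 0 b (h1 0)
      have e : (1 : ZMod 5) + 1 = 2 := by decide
      rwa [e] at this
    have h3 : ∀ b, (Sum.inl ((3 : ZMod 5), b) : W t) ∈ C.supp := fun b => by
      have := hstep 2 0 b (h2 0)
      have e : (2 : ZMod 5) + 1 = 3 := by decide
      rwa [e] at this
    have h4 : ∀ b, (Sum.inl ((4 : ZMod 5), b) : W t) ∈ C.supp := fun b => by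
      have := hstep 3 0 b (h3 0)
      have e : (3 : ZMod 5) + 1 = 4 := by decide
      rwa [e] at this
    have h5 : ∀ b, (Sum.inl ((0 : ZMod 5), b) : W t) ∈ C.supp := fun b => by
      have := hstep 4 0 b (h4 0)
      have e : (4 : ZMod 5) + 1 = 0 := by decide
      rwa [e] at this
    intro i a
    rcases zmod5_cases i with rfl | rfl | rfl | rfl | rfl
    · exact h5 a
    · exact h1 a
    · exact h2 a
    · exact h3 a
    · exact h4 a
  refine ⟨C.supp, inferInstance, K.induce C.supp, ⟨?_, ?_, ?_, ?_⟩, ?_⟩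
  · exact C.connected_toSimpleGraph
  · rintro ⟨c₂⟩
    obtain ⟨c₁, hc₁⟩ := hK3 _ _ (hD 0 0 0)
    apply hK2
    classical
    refine ⟨SimpleGraph.Coloring.mk (fun v => if h : v ∈ C.supp then c₂ ⟨v, h⟩ else c₁ v) ?_⟩
    intro x y hxy
    by_cases hx : x ∈ C.supp
    · have hy : y ∈ C.supp := (C.mem_supp_congr_adj hxy).1 hx
      simp only [hx, hy, dif_pos]
      exact c₂.valid (by simpa using hxy)
    · have hy : y ∉ C.supp := fun h => hx ((C.mem_supp_congr_adj hxy).2 h)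
      simp only [hx, hy, dif_neg, not_false_eq_true]
      apply hc₁ x y hxy
      intro h
      rw [Sym2.eq_iff] at h
      rcases h with ⟨rfl, _⟩ | ⟨rfl, _⟩
      · exact hx (hC _ _)
      · exact hx (hC _ _)
  · rintro ⟨u, hu⟩ ⟨v, hv⟩ huv
    obtain ⟨c, hc⟩ := hK3 u v (by simpa using huv)
    refine ⟨fun x => c x, fun x y hxy hne => hc _ _ (by simpa using hxy) ?_⟩
    intro h
    apply hne
    rw [Sym2.eq_iff] at h ⊢
    rcases h with ⟨h1, h2⟩ | ⟨h1, h2⟩
    · exact Or.inl ⟨Subtype.ext h1, Subtype.ext h2⟩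
    · exact Or.inr ⟨Subtype.ext h1, Subtype.ext h2⟩
  · refine ⟨fun p => ⟨Sum.inl p, hC p.1 p.2⟩, ?_, ?_⟩
    · intro p q h
      simpa using h
    · intro i a b
      simpa using hD i a b
  · calc Nat.card C.supp ≤ Nat.card (W t) := Nat.card_le_card_of_injective _ Subtype.val_injective
      _ = 15 * t + 5 := by
        simp only [W, Nat.card_eq_fintype_card, Fintype.card_sum, Fintype.card_prod, ZMod.card]
        ring

/-- `t²` edge-disjoint 5-cycles -/
def cyc {t : ℕ} (x y : ZMod t) (i : ZMod 5) : ZMod t :=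
  if i = 0 then x else if i = 1 then y else if i = 2 then x else if i = 3 then y else x + y

theorem cyc_inj {t : ℕ} (x y x' y' : ZMod t) (i : ZMod 5) (h1 : cyc x y i = cyc x' y' i)
    (h2 : cyc x y (i + 1) = cyc x' y' (i + 1)) : x = x' ∧ y = y' := by
  have e1 : (1 : ZMod 5) ≠ 0 := by decide
  have e2 : (2 : ZMod 5) ≠ 0 := by decide
  have e3 : (3 : ZMod 5) ≠ 0 := by decide
  have e4 : (4 : ZMod 5) ≠ 0 := by decide
  have e21 : (2 : ZMod 5) ≠ 1 := by decide
  have e31 : (3 : ZMod 5) ≠ 1 := by decide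
  have e41 : (4 : ZMod 5) ≠ 1 := by decide
  have e32 : (3 : ZMod 5) ≠ 2 := by decide
  have e42 : (4 : ZMod 5) ≠ 2 := by decide
  have e43 : (4 : ZMod 5) ≠ 3 := by decide
  have s1 : (1 : ZMod 5) + 1 = 2 := by decide
  have s2 : (2 : ZMod 5) + 1 = 3 := by decide
  have s3 : (3 : ZMod 5) + 1 = 4 := by decide
  have s4 : (4 : ZMod 5) + 1 = 0 := by decide
  rcases zmod5_cases i with rfl | rfl | rfl | rfl | rfl
  · simp [cyc, e1] at h1 h2
    exact ⟨h1, h2⟩
  · simp [cyc, e1, s1, e2, e21] at h1 h2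
    exact ⟨h2, h1⟩
  · simp [cyc, s2, e2, e21, e3, e31, e32] at h1 h2
    exact ⟨h1, h2⟩
  · simp [cyc, s3, e3, e31, e32, e4, e41, e42, e43] at h1 h2
    rw [h1] at h2
    exact ⟨add_right_cancel h2, h1⟩
  · simp [cyc, s4, e4, e41, e42, e43] at h1 h2
    rw [h2] at h1
    exact ⟨h2, add_left_cancel h1⟩

theorem no_two : ∀ c : Fin 5 → Fin 2, ∃ i, c i = c (i + 1) := by decide

theorem no_two' (c : ZMod 5 → Fin 2) : ∃ i, c i = c (i + 1) := no_two c

theorem far {t : ℕ} [NeZero t] {V : Type} [Finite V] (G : SimpleGraph V)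
    (f : ZMod 5 × ZMod t → V) (hf : Function.Injective f)
    (hadj : ∀ i a b, G.Adj (f (i, a)) (f (i + 1, b))) (H : SimpleGraph V)
    (hH : H.Colorable 2) : t ^ 2 ≤ Nat.card ↥(G.edgeSet \ H.edgeSet) := by
  obtain ⟨c⟩ := hH
  have hex : ∀ p : ZMod t × ZMod t, ∃ i : ZMod 5,
      ¬ H.Adj (f (i, cyc p.1 p.2 i)) (f (i + 1, cyc p.1 p.2 (i + 1))) := by
    intro p
    obtain ⟨i, hi⟩ := no_two' (fun i => c (f (i, cyc p.1 p.2 i)))
    exact ⟨i, fun h => c.valid h hi⟩
  choose I hI using hex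
  have hcard : t ^ 2 = Nat.card (ZMod t × ZMod t) := by
    rw [Nat.card_eq_fintype_card, Fintype.card_prod, ZMod.card]
    ring
  rw [hcard]
  refine Nat.card_le_card_of_injective
    (fun p => (⟨s(f (I p, cyc p.1 p.2 (I p)), f (I p + 1, cyc p.1 p.2 (I p + 1))), ?_, ?_⟩ :
      ↥(G.edgeSet \ H.edgeSet))) ?_
  · exact hadj _ _ _
  · exact hI p
  · intro p q h
    have h := congrArg Subtype.val h
    replace h : s(f (I p, cyc p.1 p.2 (I p)), f (I p + 1, cyc p.1 p.2 (I p + 1))) =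
      s(f (I q, cyc q.1 q.2 (I q)), f (I q + 1, cyc q.1 q.2 (I q + 1))) := h
    rw [Sym2.eq_iff] at h
    have h55 : ∀ i j : ZMod 5, i = j + 1 → i + 1 = j → False := by decide
    rcases h with ⟨h1, h2⟩ | ⟨h1, h2⟩
    · have h1 := hf h1
      have h2 := hf h2
      injection h1 with h3 h4
      injection h2 with h5 h6
      rw [h3] at h4 h6
      obtain ⟨h7, h8⟩ := cyc_inj _ _ _ _ _ h4 h6
      exact Prod.ext h7 h8
    · have h1 := hf h1
      have h2 := hf h2
      injection h1 with h3 h4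
      injection h2 with h5 h6
      exact absurd h5 (fun h => h55 _ _ h3 h)

end H217R2.Toft
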